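import Mathlib

/-!
# The determinants `A(n)`
-/

set_option autoImplicit false

namespace Pool.CUB

open Classical in
/-- The matrix `M_n` with rows and columns indexed by `1, …, n` (the index `i : Fin n` stands for
`i + 1`): the entry is `1` if the sum of the indices is the cube of an integer `m ≥ 1`, else `0`. -/
noncomputable def M (n : ℕ) : Matrix (Fin n) (Fin n) ℤ :=
  Matrix.of fun i j => if ∃ m : ℕ, 1 ≤ m ∧ ((i : ℕ) + 1) + ((j : ℕ) + 1) = m ^ 3 then 1 else 0

/-- `A(n) = det M_n`. -/
noncomputable def A (n : ℕ) : ℤ := (M n).det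

end Pool.CUB
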