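import Pool.Agent.H78.CUB.Core
import Pool.Agent.H78.CUB.Defs

set_option autoImplicit false

namespace Pool.CUB

theorem cast_A (K : Type*) [Field K] (n : ℕ) : ((A n : ℤ) : K) = D (sq01 K) n := by
  classical
  unfold A D
  have h := (Int.castRingHom K).map_det (M n)
  have h2 : ((M n).det : K) = (Int.castRingHom K) (M n).det := rfl
  rw [h2, h]
  congr 1
  ext i j
  by_cases hS : S ((i : ℕ) + j)
  · have hS' : ∃ m : ℕ, 1 ≤ m ∧ ((i : ℕ) + 1) + ((j : ℕ) + 1) = m ^ 3 := by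
      obtain ⟨m, h1, h2⟩ := hS
      exact ⟨m, h1, by omega⟩
    have e1 : M n i j = 1 := if_pos hS'
    have e2 : sq01 K ((i : ℕ) + j) = 1 := if_pos hS
    rw [RingHom.mapMatrix_apply, Matrix.map_apply, Matrix.of_apply, e1, e2, map_one]
  · have hS' : ¬ ∃ m : ℕ, 1 ≤ m ∧ ((i : ℕ) + 1) + ((j : ℕ) + 1) = m ^ 3 := by
      rintro ⟨m, h1, h2⟩
      exact hS ⟨m, h1, by omega⟩
    have e1 : M n i j = 0 := if_neg hS'
    have e2 : sq01 K ((i : ℕ) + j) = 0 := if_neg hS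
    rw [RingHom.mapMatrix_apply, Matrix.map_apply, Matrix.of_apply, e1, e2, map_zero]

end Pool.CUB
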