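import Pool.Agent.H78.CUB.Count
import Pool.Agent.H93.BT.Divb

/-!
# Gaps between the `n` with nonvanishing determinant
-/

set_option autoImplicit false

open Finset

namespace Pool.CUB

open Classical in
/-- the sequence of the cubes with values in `K`: one at `k` if `k + 2` is a cube -/
noncomputable def sq01 (K : Type*) [Field K] (k : ℕ) : K := if S k then 1 else 0

theorem sum_Pn (a : ℕ) :
    ∑ i : Fin a, ∑ j : Fin a, sq01 ℝ ((i : ℕ) + j) ^ 2 = ((Pn a).card : ℝ) := by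
  classical
  have h1 : ((Pn a).card : ℝ) = ∑ i ∈ range a, ∑ j ∈ range a, sq01 ℝ (i + j) ^ 2 := by
    unfold Pn
    rw [Finset.card_filter, Finset.sum_product]
    push_cast
    refine Finset.sum_congr rfl fun i _ => Finset.sum_congr rfl fun j _ => ?_
    unfold sq01
    by_cases h : S (i + j)
    · rw [if_pos h]
      norm_num
    · rw [if_neg h]
      norm_num
  rw [h1, Finset.sum_range]
  exact Finset.sum_congr rfl fun i _ => by rw [Finset.sum_range]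

theorem sum_Qn (a : ℕ) :
    ∑ i : Fin a, ∑ i' : Fin a, (∑ j : Fin a, sq01 ℝ ((i : ℕ) + j) * sq01 ℝ ((i' : ℕ) + j)) ^ 2 =
      ((Qn a).card : ℝ) := by
  classical
  have h1 : ((Qn a).card : ℝ) = ∑ i ∈ range a, ∑ i' ∈ range a,
      (∑ j ∈ range a, sq01 ℝ (i + j) * sq01 ℝ (i' + j)) ^ 2 := by
    unfold Qn
    rw [Finset.card_filter, Finset.sum_product]
    push_cast
    refine Finset.sum_congr rfl fun i _ => ?_
    rw [Finset.sum_product]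
    refine Finset.sum_congr rfl fun i' _ => ?_
    rw [Finset.sum_product, sq, Finset.sum_mul_sum]
    refine Finset.sum_congr rfl fun j _ => Finset.sum_congr rfl fun j' _ => ?_
    unfold sq01
    simp only
    by_cases h1 : S (i + j) <;> by_cases h2 : S (i' + j) <;> by_cases h3 : S (i + j') <;>
      by_cases h4 : S (i' + j') <;> simp [h1, h2, h3, h4]
  rw [h1, Finset.sum_range]
  refine Finset.sum_congr rfl fun i _ => ?_
  rw [Finset.sum_range]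
  exact Finset.sum_congr rfl fun i' _ => by rw [Finset.sum_range]

theorem core (N Y Dm : ℕ) (hY : 2 ≤ Y)
    (hD : ∀ n, 1 ≤ n → n ≤ 4 * Y ^ 3 → n.divisors.card ≤ Dm) (h : 128 * N * Dm < Y ^ 3)
    (hN : D (sq01 ℝ) N ≠ 0) : ∃ n, N < n ∧ n ≤ 2 * Y ^ 3 ∧ D (sq01 ℝ) n ≠ 0 := by
  by_contra hcon
  push Not at hcon
  obtain ⟨q, hq⟩ := recurrence (sq01 ℝ) N (2 * Y ^ 3) hN fun n h1 h2 => hcon n h1 h2
  have h1 := hankel_gram (sq01 ℝ) N (2 * Y ^ 3) (Y ^ 3) q le_rfl hq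
  rw [sum_Pn, sum_Qn] at h1
  have h2 : (Pn (Y ^ 3)).card ^ 2 ≤ N * (Qn (Y ^ 3)).card := by exact_mod_cast h1
  have h3 := Qn_card Y
  have h4 := En_card Y Dm hD
  have h5 := Pn_card Y hY
  have h6 : (Pn (Y ^ 3)).card ^ 2 ≤ N * (Y ^ 3 * (2 * Dm * (2 * Y) ^ 2)) :=
    h2.trans (Nat.mul_le_mul_left _ (h3.trans (Nat.mul_le_mul_left _ h4)))
  have h7 : (Y ^ 4) ^ 2 ≤ (4 * (Pn (Y ^ 3)).card) ^ 2 := Nat.pow_le_pow_left h5 2
  have h8 : Y ^ 5 * Y ^ 3 ≤ Y ^ 5 * (128 * N * Dm) := by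
    calc Y ^ 5 * Y ^ 3 = (Y ^ 4) ^ 2 := by ring
      _ ≤ (4 * (Pn (Y ^ 3)).card) ^ 2 := h7
      _ = 16 * (Pn (Y ^ 3)).card ^ 2 := by ring
      _ ≤ 16 * (N * (Y ^ 3 * (2 * Dm * (2 * Y) ^ 2))) := Nat.mul_le_mul_left _ h6
      _ = Y ^ 5 * (128 * N * Dm) := by ring
  have h9 : Y ^ 3 ≤ 128 * N * Dm := Nat.le_of_mul_le_mul_left h8 (by positivity)
  omega

/-- For every `N` the greatest `N' ≤ N` with nonvanishing determinant. -/
theorem greatest {K : Type*} [Field K] (s : ℕ → K) (N : ℕ) :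
    ∃ N' ≤ N, D s N' ≠ 0 ∧ ∀ n, N' < n → D s n ≠ 0 → N < n := by
  classical
  refine ⟨Nat.findGreatest (fun n => D s n ≠ 0) N, Nat.findGreatest_le N, ?_, ?_⟩
  · exact Nat.findGreatest_spec (P := fun n => D s n ≠ 0) (Nat.zero_le N)
      (by rw [D_zero]; exact one_ne_zero)
  · intro n h1 h2
    by_contra h3
    exact Nat.findGreatest_is_greatest h1 (not_lt.1 h3) h2

theorem core' (N Y Dm : ℕ) (hY : 2 ≤ Y)
    (hD : ∀ n, 1 ≤ n → n ≤ 4 * Y ^ 3 → n.divisors.card ≤ Dm) (h : 128 * N * Dm < Y ^ 3) :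
    ∃ n, N < n ∧ n ≤ 2 * Y ^ 3 ∧ D (sq01 ℝ) n ≠ 0 := by
  obtain ⟨N', hN', h0, hgr⟩ := greatest (sq01 ℝ) N
  have h1 : 128 * N' * Dm < Y ^ 3 := by
    refine lt_of_le_of_lt ?_ h
    exact Nat.mul_le_mul_right _ (Nat.mul_le_mul_left _ hN')
  obtain ⟨n, h2, h3, h4⟩ := core N' Y Dm hY hD h1 h0
  exact ⟨n, hgr n h2 h4, h3, h4⟩

/-- The elementary gap bound, over every field. -/
theorem gap {K : Type*} [Field K] (N m : ℕ) (hm : 2 ≤ m) (h : N + (m - 1) ^ 3 < m ^ 3) :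
    ∃ n, N < n ∧ n < m ^ 3 ∧ D (sq01 K) n ≠ 0 := by
  obtain ⟨N', hN', h0, hgr⟩ := greatest (sq01 K) N
  have h1 : 1 ≤ (m - 1) ^ 3 := Nat.one_le_pow _ _ (by omega)
  obtain ⟨n, h2, h3, h4⟩ := next (sq01 K) N' (m ^ 3 - 2 - N') h0 (by
    intro j hj
    unfold sq01
    rw [if_neg]
    rintro ⟨c, hc1, hc⟩
    have h5 : m ^ 3 - 2 - N' + j + 2 < m ^ 3 := by omega
    have h6 : (m - 1) ^ 3 < m ^ 3 - 2 - N' + j + 2 := by omega
    rw [hc] at h5 h6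
    have h7 : c < m := lt_of_pow_lt_pow_left₀ 3 (by omega) h5
    have h8 : m - 1 < c := lt_of_pow_lt_pow_left₀ 3 (by omega) h6
    omega) (by
    unfold sq01
    rw [if_pos ⟨m, by omega, by omega⟩]
    exact one_ne_zero)
  exact ⟨n, hgr n h2 h4, by omega, h4⟩

theorem asymp (ε : ℝ) (hε : 0 < ε) : ∃ C : ℝ, ∀ N : ℕ, 1 ≤ N →
    ∃ n : ℕ, N < n ∧ (n : ℝ) ≤ C * (N : ℝ) ^ (1 + ε) ∧ D (sq01 ℝ) n ≠ 0 := by
  have he : 0 < 1 + ε := by linarith
  obtain ⟨e, hedef⟩ : ∃ e : ℝ, e = ε / (1 + ε) := ⟨_, rfl⟩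
  have he0 : 0 < e := by rw [hedef]; positivity
  have he1 : e ≤ 1 := by
    rw [hedef, div_le_one he]
    linarith
  have he2 : (1 + ε) * (1 - e) = 1 := by
    rw [hedef]
    field_simp
    ring
  obtain ⟨C0, hC0, hdiv⟩ := Pool.Agent.H93.BT.divisor_bound e he0
  refine ⟨16 * (513 * C0) ^ (1 + ε), fun N hN => ?_⟩
  have hN1 : (1 : ℝ) ≤ N := by exact_mod_cast hN
  have hCN : 1 ≤ C0 * N := by nlinarith
  obtain ⟨b, hb⟩ : ∃ b : ℝ, b = 513 * C0 * N := ⟨_, rfl⟩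
  have hb1 : 513 ≤ b := by rw [hb]; nlinarith
  have hb0 : 0 < b := by linarith
  obtain ⟨B, hB⟩ : ∃ B : ℝ, B = b ^ (1 + ε) := ⟨_, rfl⟩
  have hB1 : 513 ≤ B := by
    rw [hB]
    calc (513 : ℝ) ≤ b := hb1
      _ = b ^ (1 : ℝ) := (Real.rpow_one b).symm
      _ ≤ b ^ (1 + ε) := Real.rpow_le_rpow_of_exponent_le (by linarith) (by linarith)
  have hB0 : 0 < B := by linarith
  obtain ⟨x, hx⟩ : ∃ x : ℝ, x = B ^ ((1 : ℝ) / 3) := ⟨_, rfl⟩
  have hx0 : 0 ≤ x := by rw [hx]; positivity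
  have hx3 : x ^ 3 = B := by
    rw [hx, ← Real.rpow_natCast, ← Real.rpow_mul hB0.le]
    norm_num
  have hx8 : 8 ≤ x := by
    by_contra hcon
    push Not at hcon
    have : x ^ 3 < 8 ^ 3 := pow_lt_pow_left₀ hcon hx0 (by norm_num)
    rw [hx3] at this
    linarith
  obtain ⟨Y, hYdef⟩ : ∃ Y : ℕ, Y = ⌈x⌉₊ := ⟨_, rfl⟩
  have hYx : x ≤ Y := by rw [hYdef]; exact Nat.le_ceil x
  have hYx2 : (Y : ℝ) ≤ 2 * x := by
    have := Nat.ceil_lt_add_one hx0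
    rw [hYdef]
    linarith
  have hY3 : B ≤ (Y : ℝ) ^ 3 := by
    rw [← hx3]
    exact pow_le_pow_left₀ hx0 hYx 3
  have hY3' : (Y : ℝ) ^ 3 ≤ 8 * B := by
    rw [← hx3]
    calc (Y : ℝ) ^ 3 ≤ (2 * x) ^ 3 := pow_le_pow_left₀ (Nat.cast_nonneg _) hYx2 3
      _ = 8 * x ^ 3 := by ring
  have hY2 : 2 ≤ Y := by
    have : (2 : ℝ) ≤ Y := by linarith
    exact_mod_cast this
  obtain ⟨t, ht⟩ : ∃ t : ℝ, t = (Y : ℝ) ^ 3 := ⟨_, rfl⟩
  have ht0 : 0 < t := by rw [ht]; linarith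
  have hBt : B ≤ t := by rw [ht]; exact hY3
  -- the divisor bound
  have hte : 512 * C0 * N * t ^ e < t := by
    have h1 : b ≤ t ^ (1 - e) := by
      calc b = b ^ ((1 + ε) * (1 - e)) := by rw [he2, Real.rpow_one]
        _ = B ^ (1 - e) := by rw [Real.rpow_mul hb0.le, ← hB]
        _ ≤ t ^ (1 - e) := Real.rpow_le_rpow hB0.le hBt (by linarith)
    have h2 : t ^ (1 - e) * t ^ e = t := by
      rw [← Real.rpow_add ht0]
      simp
    have h3 : 0 < t ^ e := Real.rpow_pos_of_pos ht0 e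
    calc 512 * C0 * N * t ^ e < b * t ^ e := by
          apply mul_lt_mul_of_pos_right _ h3
          rw [hb]
          nlinarith
      _ ≤ t ^ (1 - e) * t ^ e := mul_le_mul_of_nonneg_right h1 h3.le
      _ = t := h2
  have h4t : (4 * t) ^ e ≤ 4 * t ^ e := by
    rw [Real.mul_rpow (by norm_num) ht0.le]
    apply mul_le_mul_of_nonneg_right _ (Real.rpow_nonneg ht0.le e)
    calc (4 : ℝ) ^ e ≤ 4 ^ (1 : ℝ) := Real.rpow_le_rpow_of_exponent_le (by norm_num) he1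
      _ = 4 := Real.rpow_one 4
  obtain ⟨n, h1, h2, h3⟩ := core' N Y ⌊C0 * (4 * t) ^ e⌋₊ hY2 (by
    intro n hn1 hn2
    apply Nat.le_floor
    refine (hdiv n (by omega)).trans (mul_le_mul_of_nonneg_left ?_ (by linarith))
    apply Real.rpow_le_rpow (Nat.cast_nonneg _) _ he0.le
    rw [ht]
    exact_mod_cast hn2) (by
    have hfl : ((⌊C0 * (4 * t) ^ e⌋₊ : ℕ) : ℝ) ≤ C0 * (4 * t) ^ e :=
      Nat.floor_le (mul_nonneg (by linarith) (Real.rpow_nonneg (by linarith) e))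
    have h5 : (128 * N * (⌊C0 * (4 * t) ^ e⌋₊ : ℕ) : ℝ) < (Y : ℝ) ^ 3 := by
      calc (128 * N * (⌊C0 * (4 * t) ^ e⌋₊ : ℕ) : ℝ) ≤ 128 * N * (C0 * (4 * t) ^ e) :=
            mul_le_mul_of_nonneg_left hfl (by positivity)
        _ ≤ 128 * N * (C0 * (4 * t ^ e)) := by
            apply mul_le_mul_of_nonneg_left _ (by positivity)
            exact mul_le_mul_of_nonneg_left h4t (by linarith)
        _ = 512 * C0 * N * t ^ e := by ring
        _ < t := hte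
        _ = (Y : ℝ) ^ 3 := ht
    exact_mod_cast h5)
  refine ⟨n, h1, ?_, h3⟩
  have h6 : (n : ℝ) ≤ 2 * (Y : ℝ) ^ 3 := by exact_mod_cast h2
  calc (n : ℝ) ≤ 2 * (Y : ℝ) ^ 3 := h6
    _ ≤ 16 * B := by linarith
    _ = 16 * (513 * C0) ^ (1 + ε) * (N : ℝ) ^ (1 + ε) := by
        rw [hB, hb, Real.mul_rpow (by linarith) (by linarith)]
        ring

end Pool.CUB
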