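import Pool.Agent.H78.CUB.Rank

/-!
# Counting with sums of two cubes
-/

set_option autoImplicit false

open Finset

namespace Pool.CUB

/-- `k + 2` is a cube -/
def S (k : ℕ) : Prop := ∃ m : ℕ, 1 ≤ m ∧ k + 2 = m ^ 3

theorem rep_bound (n : ℕ) (hn : 1 ≤ n) (T : Finset (ℕ × ℕ))
    (hT : ∀ p ∈ T, 1 ≤ p.1 ∧ 1 ≤ p.2 ∧ p.1 ^ 3 + p.2 ^ 3 = n) :
    T.card ≤ 2 * n.divisors.card := by
  have h1 : T.card ≤ (n.divisors ×ˢ (Finset.univ : Finset Bool)).card := by
    apply Finset.card_le_card_of_injOn (fun p => (p.1 + p.2, decide (p.1 ≤ p.2)))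
    · intro p hp
      obtain ⟨_, _, h3⟩ := hT p hp
      have h4 : p.1 + p.2 ∣ n := by
        rw [← h3]
        exact Odd.nat_add_dvd_pow_add_pow _ _ (by decide)
      simp only [Finset.coe_product, Set.mem_prod, Finset.mem_coe, Nat.mem_divisors,
        Finset.mem_univ, and_true]
      exact ⟨h4, by omega⟩
    · rintro ⟨y, z⟩ hp ⟨y', z'⟩ hp' he
      obtain ⟨h1, h2, h3⟩ := hT _ hp
      obtain ⟨h1', h2', h3'⟩ := hT _ hp'
      simp only at h1 h2 h3 h1' h2' h3'
      simp only [Prod.mk.injEq, decide_eq_decide] at he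
      obtain ⟨hs, hd⟩ := he
      have a1 : (y : ℤ) + z = y' + z' := by exact_mod_cast hs
      have a2 : (y : ℤ) ^ 3 + (z : ℤ) ^ 3 = (y' : ℤ) ^ 3 + (z' : ℤ) ^ 3 := by
        exact_mod_cast h3.trans h3'.symm
      have a3 : (3 * ((y : ℤ) + z)) * ((y : ℤ) * z - y' * z') = 0 := by
        linear_combination (((y : ℤ) + z) ^ 2 + (y + z) * (y' + z') + (y' + z') ^ 2 -
          3 * y' * z') * a1 - a2
      have a4 : (y : ℤ) * z - y' * z' = 0 := by
        rcases mul_eq_zero.1 a3 with h | h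
        · omega
        · exact h
      have a5 : ((y : ℤ) - y') * ((y : ℤ) - z') = 0 := by
        linear_combination y * a1 - a4
      rcases mul_eq_zero.1 a5 with h | h
      · have e1 : y = y' := by omega
        have e2 : z = z' := by omega
        rw [e1, e2]
      · have e1 : y = z' := by omega
        have e2 : z = y' := by omega
        have e3 : y = y' := by omega
        have e4 : z = z' := by omega
        rw [e3, e4]
  rw [Finset.card_product, Finset.card_univ, Fintype.card_bool, mul_comm] at h1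
  exact h1

open Classical in
/-- the quadruples of indices -/
noncomputable def Qn (a : ℕ) : Finset (ℕ × ℕ × ℕ × ℕ) :=
  ((range a) ×ˢ (range a) ×ˢ (range a) ×ˢ (range a)).filter fun t =>
    S (t.1 + t.2.2.1) ∧ S (t.2.1 + t.2.2.1) ∧ S (t.1 + t.2.2.2) ∧ S (t.2.1 + t.2.2.2)

open Classical in
/-- the additive quadruples of cubes -/
noncomputable def En (Y : ℕ) : Finset ((ℕ × ℕ) × (ℕ × ℕ)) :=
  (((Icc 1 (2 * Y)) ×ˢ (Icc 1 (2 * Y))) ×ˢ ((Icc 1 (2 * Y)) ×ˢ (Icc 1 (2 * Y)))).filter fun t =>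
    t.1.1 ^ 3 + t.1.2 ^ 3 = t.2.1 ^ 3 + t.2.2 ^ 3 ∧ t.1.1 ^ 3 + t.1.2 ^ 3 ≤ 4 * Y ^ 3

theorem En_card (Y Dm : ℕ) (hD : ∀ n, 1 ≤ n → n ≤ 4 * Y ^ 3 → n.divisors.card ≤ Dm) :
    (En Y).card ≤ 2 * Dm * (2 * Y) ^ 2 := by
  have h1 : (En Y).card ≤ 2 * Dm * ((Icc 1 (2 * Y)) ×ˢ (Icc 1 (2 * Y))).card := by
    apply Finset.card_le_mul_card_image_of_maps_to (f := Prod.fst)
    · intro t ht
      unfold En at ht
      rw [Finset.mem_filter, Finset.mem_product] at ht
      exact ht.1.1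
    · rintro ⟨x, w⟩ hb
      by_cases hne : ((En Y).filter fun t => t.1 = (x, w)).Nonempty
      · obtain ⟨t0, ht0⟩ := hne
        rw [Finset.mem_filter] at ht0
        obtain ⟨ht0, he0⟩ := ht0
        unfold En at ht0
        rw [Finset.mem_filter] at ht0
        obtain ⟨_, _, hle⟩ := ht0
        rw [he0] at hle
        simp only at hle
        rw [Finset.mem_product, Finset.mem_Icc, Finset.mem_Icc] at hb
        have hn1 : 1 ≤ x ^ 3 + w ^ 3 := by
          have : 1 ≤ x ^ 3 := Nat.one_le_pow _ _ hb.1.1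
          omega
        have h3 : ((En Y).filter fun t => t.1 = (x, w)).card =
            (((En Y).filter fun t => t.1 = (x, w)).image Prod.snd).card := by
          rw [Finset.card_image_of_injOn]
          intro t ht t' ht' hh
          rw [Finset.mem_coe, Finset.mem_filter] at ht ht'
          exact Prod.ext (ht.2.trans ht'.2.symm) hh
        rw [h3]
        refine (rep_bound (x ^ 3 + w ^ 3) hn1 _ ?_).trans
          (Nat.mul_le_mul_left 2 (hD _ hn1 hle))
        intro p hp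
        rw [Finset.mem_image] at hp
        obtain ⟨t, ht, rfl⟩ := hp
        rw [Finset.mem_filter] at ht
        obtain ⟨ht, he⟩ := ht
        unfold En at ht
        rw [Finset.mem_filter, Finset.mem_product, Finset.mem_product, Finset.mem_product,
          Finset.mem_Icc, Finset.mem_Icc, Finset.mem_Icc, Finset.mem_Icc] at ht
        refine ⟨ht.1.2.1.1, ht.1.2.2.1, ?_⟩
        rw [← ht.2.1, he]
      · rw [Finset.not_nonempty_iff_eq_empty] at hne
        rw [hne, Finset.card_empty]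
        exact Nat.zero_le _
  rw [Finset.card_product, Nat.card_Icc] at h1
  have e : (2 * Y + 1 - 1) * (2 * Y + 1 - 1) = (2 * Y) ^ 2 := by
    rw [Nat.add_sub_cancel, sq]
  rwa [e] at h1

open Classical in
/-- the cube root -/
noncomputable def cr (k : ℕ) : ℕ := if h : S k then h.choose else 0

theorem cr_spec {k : ℕ} (h : S k) : 1 ≤ cr k ∧ k + 2 = cr k ^ 3 := by
  unfold cr
  rw [dif_pos h]
  exact h.choose_spec

theorem Qn_card (Y : ℕ) : (Qn (Y ^ 3)).card ≤ Y ^ 3 * (En Y).card := by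
  have h1 : (Qn (Y ^ 3)).card ≤ ((range (Y ^ 3)) ×ˢ (En Y)).card := by
    apply Finset.card_le_card_of_injOn
      (fun t => (t.1, ((cr (t.1 + t.2.2.1), cr (t.2.1 + t.2.2.2)),
        (cr (t.2.1 + t.2.2.1), cr (t.1 + t.2.2.2)))))
    · rintro ⟨i, i', j, j'⟩ ht
      unfold Qn at ht
      simp only [Finset.coe_filter, Finset.mem_product, Finset.mem_range, Set.mem_ofPred_eq] at ht
      obtain ⟨⟨hi, hi', hj, hj'⟩, s1, s2, s3, s4⟩ := ht
      obtain ⟨c1, d1⟩ := cr_spec s1
      obtain ⟨c2, d2⟩ := cr_spec s2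
      obtain ⟨c3, d3⟩ := cr_spec s3
      obtain ⟨c4, d4⟩ := cr_spec s4
      have hcube : ∀ c : ℕ, c ^ 3 ≤ 2 * Y ^ 3 → c ≤ 2 * Y := by
        intro c hc
        by_contra hcon
        push Not at hcon
        have h5 : (2 * Y) ^ 3 < c ^ 3 := Nat.pow_lt_pow_left hcon (by norm_num)
        have h6 : (2 * Y) ^ 3 = 8 * Y ^ 3 := by ring
        omega
      unfold En
      simp only [Finset.coe_product, Set.mem_prod, Finset.mem_coe, Finset.mem_range,
        Finset.mem_filter, Finset.mem_product, Finset.mem_Icc]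
      refine ⟨hi, ⟨⟨⟨⟨c1, hcube _ ?_⟩, ⟨c4, hcube _ ?_⟩⟩, ⟨⟨c2, hcube _ ?_⟩, ⟨c3, hcube _ ?_⟩⟩⟩,
        ?_, ?_⟩⟩
      all_goals omega
    · rintro ⟨i, i', j, j'⟩ ht ⟨k, k', l, l'⟩ ht' he
      unfold Qn at ht ht'
      simp only [Finset.coe_filter, Finset.mem_product, Finset.mem_range, Set.mem_ofPred_eq] at ht ht'
      obtain ⟨_, s1, s2, s3, s4⟩ := ht
      obtain ⟨_, s1', s2', s3', s4'⟩ := ht'
      simp only [Prod.mk.injEq] at he
      obtain ⟨e0, ⟨e1, e4⟩, e2, e3⟩ := he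
      have d1 := (cr_spec s1).2
      have d2 := (cr_spec s2).2
      have d3 := (cr_spec s3).2
      have d1' := (cr_spec s1').2
      have d2' := (cr_spec s2').2
      have d3' := (cr_spec s3').2
      rw [e1] at d1
      rw [e2] at d2
      rw [e3] at d3
      simp only [Prod.mk.injEq]
      omega
  rwa [Finset.card_product, Finset.card_range] at h1

open Classical in
/-- the pairs of indices -/
noncomputable def Pn (a : ℕ) : Finset (ℕ × ℕ) :=
  ((range a) ×ˢ (range a)).filter fun t => S (t.1 + t.2)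

theorem sum_cubes (Y : ℕ) : 4 * ∑ m ∈ range Y, ((m + 1) ^ 3 - 1) + 4 * Y = Y ^ 2 * (Y + 1) ^ 2 := by
  induction Y with
  | zero => simp
  | succ n ih =>
    rw [Finset.sum_range_succ]
    have h1 : 1 ≤ (n + 1) ^ 3 := Nat.one_le_pow _ _ (by omega)
    obtain ⟨c, hc⟩ := Nat.exists_eq_add_of_le h1
    rw [hc, Nat.add_sub_cancel_left]
    have h2 : 4 * (∑ m ∈ range n, ((m + 1) ^ 3 - 1) + c) + 4 * (n + 1) =
        n ^ 2 * (n + 1) ^ 2 + 4 * (1 + c) := by
      rw [← ih]
      ring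
    rw [h2, ← hc]
    ring

theorem Pn_card (Y : ℕ) (hY : 2 ≤ Y) : Y ^ 4 ≤ 4 * (Pn (Y ^ 3)).card := by
  classical
  have h1 : ((range Y).sigma fun m => range ((m + 1) ^ 3 - 1)).card ≤ (Pn (Y ^ 3)).card := by
    apply Finset.card_le_card_of_injOn (fun t => (t.2, (t.1 + 1) ^ 3 - 2 - t.2))
    · rintro ⟨m, i⟩ ht
      rw [Finset.mem_coe, Finset.mem_sigma, Finset.mem_range, Finset.mem_range] at ht
      simp only at ht
      obtain ⟨hm, hi⟩ := ht
      have h2 : (m + 1) ^ 3 ≤ Y ^ 3 := Nat.pow_le_pow_left (by omega) 3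
      unfold Pn
      refine Finset.mem_coe.2 (Finset.mem_filter.2 ⟨Finset.mem_product.2
        ⟨Finset.mem_range.2 ?_, Finset.mem_range.2 ?_⟩, m + 1, by omega, ?_⟩)
      all_goals
        simp only
        omega
    · rintro ⟨m, i⟩ ht ⟨m', i'⟩ ht' he
      rw [Finset.mem_coe, Finset.mem_sigma, Finset.mem_range, Finset.mem_range] at ht ht'
      simp only at ht ht'
      simp only [Prod.mk.injEq] at he
      obtain ⟨e1, e2⟩ := he
      have e3 : (m + 1) ^ 3 = (m' + 1) ^ 3 := by omega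
      have e4 : m + 1 = m' + 1 := Nat.pow_left_injective (n := 3) (by norm_num) e3
      have e5 : m = m' := by omega
      subst e5
      subst e1
      rfl
  rw [Finset.card_sigma] at h1
  simp only [Finset.card_range] at h1
  have h2 := sum_cubes Y
  have h3 : Y ^ 4 + 4 * Y ≤ Y ^ 2 * (Y + 1) ^ 2 := by
    have e : Y ^ 2 * (Y + 1) ^ 2 = Y ^ 4 + 2 * Y ^ 3 + Y ^ 2 := by ring
    rw [e]
    have h4 : 2 * Y ≤ Y ^ 2 := by nlinarith
    have h5 : Y ≤ Y ^ 3 := Nat.le_self_pow (by norm_num) Y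
    omega
  omega

end Pool.CUB
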