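import Mathlib

/-!
# Gaps between nonvanishing Hankel determinants

`D s n` is the determinant of the `n × n` matrix `(s (i + j))`, `0 ≤ i, j < n`. If `D s N ≠ 0` and
`D s n = 0` for `N < n ≤ X`, the sequence satisfies a linear recurrence of order `N` up to the index
`X + N - 1` (Kronecker, Frobenius).
-/

set_option autoImplicit false

open Finset

namespace Pool.CUB

variable {K : Type*} [Field K]

/-- the Hankel determinant -/
def D (s : ℕ → K) (n : ℕ) : K := (Matrix.of fun i j : Fin n => s ((i : ℕ) + j)).det

theorem D_zero (s : ℕ → K) : D s 0 = 1 := by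
  unfold D
  exact Matrix.det_isEmpty

theorem kernel (s : ℕ → K) (n : ℕ) (h : D s n = 0) :
    ∃ w : ℕ → K, (∃ c < n, w c ≠ 0) ∧ ∀ i < n, ∑ c ∈ range n, s (i + c) * w c = 0 := by
  obtain ⟨v, hv0, hv⟩ := Matrix.exists_mulVec_eq_zero_iff.2 h
  refine ⟨fun c => if h : c < n then v ⟨c, h⟩ else 0, ?_, ?_⟩
  · by_contra hcon
    push Not at hcon
    apply hv0
    ext c
    have h1 := hcon c.1 c.2
    simpa using h1
  · intro i hi
    have h1 := congrFun hv ⟨i, hi⟩
    rw [Finset.sum_range]
    simpa [Matrix.mulVec, dotProduct] using h1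

theorem noKernel (s : ℕ → K) (n : ℕ) (h : D s n ≠ 0) (w : ℕ → K)
    (hw : ∀ i < n, ∑ c ∈ range n, s (i + c) * w c = 0) : ∀ c < n, w c = 0 := by
  have h1 : (fun c : Fin n => w c) = 0 := by
    apply Matrix.eq_zero_of_mulVec_eq_zero h
    ext i
    have h2 := hw i.1 i.2
    rw [Finset.sum_range] at h2
    simpa [Matrix.mulVec, dotProduct] using h2
  intro c hc
  exact congrFun h1 ⟨c, hc⟩

theorem solve (s : ℕ → K) (n : ℕ) (h : D s n ≠ 0) (b : ℕ → K) :
    ∃ q : ℕ → K, ∀ i < n, ∑ c ∈ range n, s (i + c) * q c = b i := by
  let M : Matrix (Fin n) (Fin n) K := Matrix.of fun i j : Fin n => s ((i : ℕ) + j)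
  let v : Fin n → K := M⁻¹.mulVec fun i : Fin n => b i
  have hM : IsUnit M.det := (isUnit_iff_ne_zero).2 h
  have hv : M.mulVec v = fun i : Fin n => b i := by
    simp only [v]
    rw [Matrix.mulVec_mulVec, Matrix.mul_nonsing_inv _ hM, Matrix.one_mulVec]
  refine ⟨fun c => if h : c < n then v ⟨c, h⟩ else 0, fun i hi => ?_⟩
  have h1 := congrFun hv ⟨i, hi⟩
  rw [Finset.sum_range]
  simpa [Matrix.mulVec, dotProduct, M] using h1

/-- the recurrence -/
theorem recurrence (s : ℕ → K) (N X : ℕ) (hN : D s N ≠ 0)
    (hX : ∀ n, N < n → n ≤ X → D s n = 0) :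
    ∃ q : ℕ → K, ∀ k < X, s (k + N) = ∑ j ∈ range N, q j * s (k + j) := by
  obtain ⟨q, hq⟩ := solve s N hN fun k => s (k + N)
  refine ⟨q, ?_⟩
  intro k
  induction k using Nat.strong_induction_on with
  | _ k ih =>
    intro hk
    by_cases hkN : k < N
    · rw [← hq k hkN]
      exact Finset.sum_congr rfl fun j _ => mul_comm _ _
    · push Not at hkN
      by_contra hne
      obtain ⟨w, ⟨c0, hc0, hw0⟩, hw⟩ := kernel s (k + 1) (hX (k + 1) (by omega) (by omega))
      let e : ℕ → K := fun k => s (k + N) - ∑ j ∈ range N, q j * s (k + j)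
      have he : ∀ i < k, e i = 0 := fun i hi => sub_eq_zero.2 (ih i hi (by omega))
      have hek : e k ≠ 0 := sub_ne_zero.2 hne
      -- combination of rows
      have hrow : ∀ a, a + N ≤ k → ∑ c ∈ range (k + 1), e (a + c) * w c = 0 := by
        intro a ha
        have h1 : ∑ c ∈ range (k + 1), s (a + N + c) * w c = 0 := hw (a + N) (by omega)
        have h2 : ∀ j ∈ range N, ∑ c ∈ range (k + 1), s (a + j + c) * w c = 0 := by
          intro j hj
          rw [Finset.mem_range] at hj
          exact hw (a + j) (by omega)
        have h3 : ∑ c ∈ range (k + 1), (∑ j ∈ range N, q j * s (a + c + j)) * w c = 0 := by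
          simp only [Finset.sum_mul]
          rw [Finset.sum_comm]
          apply Finset.sum_eq_zero
          intro j hj
          have h4 : ∀ c ∈ range (k + 1), q j * s (a + c + j) * w c =
              q j * (s (a + j + c) * w c) := by
            intro c _
            rw [show a + c + j = a + j + c by omega]
            ring
          rw [Finset.sum_congr rfl h4, ← Finset.mul_sum, h2 j hj, mul_zero]
        have h5 : ∀ c ∈ range (k + 1), e (a + c) * w c = s (a + N + c) * w c -
            (∑ j ∈ range N, q j * s (a + c + j)) * w c := by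
          intro c _
          simp only [e]
          rw [show a + c + N = a + N + c by omega]
          ring
        rw [Finset.sum_congr rfl h5, Finset.sum_sub_distrib, h1, h3, sub_zero]
      -- the entries of `w` from `N` on vanish
      have hwz : ∀ a, a + N ≤ k → w (k - a) = 0 := by
        intro a
        induction a using Nat.strong_induction_on with
        | _ a iha =>
          intro ha
          have h1 := hrow a ha
          rw [Finset.sum_eq_single (k - a)] at h1
          · rw [show a + (k - a) = k by omega] at h1
            exact (mul_eq_zero.1 h1).resolve_left hek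
          · intro c hc hca
            rw [Finset.mem_range] at hc
            rcases lt_or_gt_of_ne hca with h2 | h2
            · rw [he (a + c) (by omega), zero_mul]
            · have h3 := iha (k - c) (by omega) (by omega)
              rw [show k - (k - c) = c by omega] at h3
              rw [h3, mul_zero]
          · intro h2
            exact absurd (Finset.mem_range.2 (by omega)) h2
      have hwz2 : ∀ c, N ≤ c → c < k + 1 → w c = 0 := by
        intro c h1 h2
        have h3 := hwz (k - c) (by omega)
        rwa [show k - (k - c) = c by omega] at h3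
      have hsmall : ∀ i < N, ∑ c ∈ range N, s (i + c) * w c = 0 := by
        intro i hi
        rw [← hw i (by omega)]
        apply Finset.sum_subset
        · intro c hc
          rw [Finset.mem_range] at hc ⊢
          omega
        · intro c hc hc2
          rw [Finset.mem_range] at hc hc2
          rw [hwz2 c (by omega) (by omega), mul_zero]
      have hz := noKernel s N hN w hsmall
      by_cases hcN : c0 < N
      · exact hw0 (hz c0 hcN)
      · exact hw0 (hwz2 c0 (by omega) (by omega))

/-- After `N` with `D s N ≠ 0` the next nonvanishing determinant comes before `k + 2`, if `N` zeros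
`s k, …, s (k + N - 1)` are followed by a nonzero term. -/
theorem next (s : ℕ → K) (N k : ℕ) (hN : D s N ≠ 0) (h0 : ∀ j < N, s (k + j) = 0)
    (h1 : s (k + N) ≠ 0) : ∃ n, N < n ∧ n ≤ k + 1 ∧ D s n ≠ 0 := by
  by_contra hcon
  push Not at hcon
  obtain ⟨q, hq⟩ := recurrence s N (k + 1) hN fun n h2 h3 => hcon n h2 h3
  apply h1
  rw [hq k (by omega)]
  apply Finset.sum_eq_zero
  intro j hj
  rw [h0 j (Finset.mem_range.1 hj), mul_zero]

end Pool.CUB
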