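import Pool.Agent.H78.CUB.Hankel

/-!
# The rank of the Hankel matrices of the cubes

If the first rows span all rows, then `N` is at least `(number of ones)² / (number of closed
walks of length four)`.
-/

set_option autoImplicit false

open Finset

namespace Pool.CUB

theorem gram {I T : Type*} [Fintype I] [Fintype T] (c : I → T → ℝ) :
    (∑ i, ∑ t, c i t ^ 2) ^ 2 ≤
      (Fintype.card T : ℝ) * ∑ i, ∑ i', (∑ t, c i t * c i' t) ^ 2 := by
  have h1 : ∑ i, ∑ i', (∑ t, c i t * c i' t) ^ 2 = ∑ t, ∑ t', (∑ i, c i t * c i t') ^ 2 := by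
    have h2 : ∀ i i', (∑ t, c i t * c i' t) ^ 2 =
        ∑ t, ∑ t', (c i t * c i t') * (c i' t * c i' t') := by
      intro i i'
      rw [sq, Finset.sum_mul_sum]
      refine Finset.sum_congr rfl fun t _ => Finset.sum_congr rfl fun t' _ => ?_
      ring
    have h3 : ∀ t t', (∑ i, c i t * c i t') ^ 2 =
        ∑ i, ∑ i', (c i t * c i t') * (c i' t * c i' t') := by
      intro t t'
      rw [sq, Finset.sum_mul_sum]
    simp only [h2, h3]
    calc ∑ i, ∑ i', ∑ t, ∑ t', (c i t * c i t') * (c i' t * c i' t')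
        = ∑ i, ∑ t, ∑ i', ∑ t', (c i t * c i t') * (c i' t * c i' t') :=
          Finset.sum_congr rfl fun i _ => Finset.sum_comm
      _ = ∑ t, ∑ i, ∑ i', ∑ t', (c i t * c i t') * (c i' t * c i' t') := Finset.sum_comm
      _ = ∑ t, ∑ i, ∑ t', ∑ i', (c i t * c i t') * (c i' t * c i' t') :=
          Finset.sum_congr rfl fun t _ => Finset.sum_congr rfl fun i _ => Finset.sum_comm
      _ = ∑ t, ∑ t', ∑ i, ∑ i', (c i t * c i t') * (c i' t * c i' t') :=
          Finset.sum_congr rfl fun t _ => Finset.sum_comm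
  have h4 : ∑ t, (∑ i, c i t ^ 2) ^ 2 ≤ ∑ t, ∑ t', (∑ i, c i t * c i t') ^ 2 := by
    refine Finset.sum_le_sum fun t _ => ?_
    have h5 : (∑ i, c i t ^ 2) ^ 2 = (∑ i, c i t * c i t) ^ 2 := by
      simp only [sq]
    rw [h5]
    exact Finset.single_le_sum (f := fun t' => (∑ i, c i t * c i t') ^ 2)
      (fun t' _ => sq_nonneg _) (Finset.mem_univ t)
  have h6 : (∑ i, ∑ t, c i t ^ 2) ^ 2 ≤ (Fintype.card T : ℝ) * ∑ t, (∑ i, c i t ^ 2) ^ 2 := by
    rw [Finset.sum_comm]
    have h7 := sq_sum_le_card_mul_sum_sq (s := (Finset.univ : Finset T))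
      (f := fun t => ∑ i, c i t ^ 2)
    simpa using h7
  rw [h1]
  exact h6.trans (mul_le_mul_of_nonneg_left h4 (Nat.cast_nonneg _))

/-- vectors in the span of `N` vectors -/
theorem span_gram {I J : Type*} [Fintype I] [Fintype J] (N : ℕ) (R : I → EuclideanSpace ℝ J)
    (u : Fin N → EuclideanSpace ℝ J) (h : ∀ i, R i ∈ Submodule.span ℝ (Set.range u)) :
    (∑ i, inner ℝ (R i) (R i)) ^ 2 ≤ (N : ℝ) * ∑ i, ∑ i', (inner ℝ (R i) (R i') : ℝ) ^ 2 := by
  let V : Submodule ℝ (EuclideanSpace ℝ J) := Submodule.span ℝ (Set.range u)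
  let o := stdOrthonormalBasis ℝ V
  let c : I → Fin (Module.finrank ℝ V) → ℝ := fun i t => inner ℝ (o t) (⟨R i, h i⟩ : V)
  have h1 : ∀ i i', (inner ℝ (R i) (R i') : ℝ) = ∑ t, c i t * c i' t := by
    intro i i'
    have h2 := o.sum_inner_mul_inner (⟨R i, h i⟩ : V) (⟨R i', h i'⟩ : V)
    have h3 : (inner ℝ (⟨R i, h i⟩ : V) (⟨R i', h i'⟩ : V) : ℝ) = inner ℝ (R i) (R i') := rfl
    rw [h3] at h2
    rw [← h2]
    refine Finset.sum_congr rfl fun t _ => ?_
    simp only [c]
    rw [real_inner_comm]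
  have h4 := gram c
  have h5 : ∑ i, ∑ t, c i t ^ 2 = ∑ i, (inner ℝ (R i) (R i) : ℝ) := by
    refine Finset.sum_congr rfl fun i _ => ?_
    rw [h1 i i]
    exact Finset.sum_congr rfl fun t _ => sq _
  have h6 : ∑ i, ∑ i', (∑ t, c i t * c i' t) ^ 2 =
      ∑ i, ∑ i', (inner ℝ (R i) (R i') : ℝ) ^ 2 :=
    Finset.sum_congr rfl fun i _ => Finset.sum_congr rfl fun i' _ => by rw [h1 i i']
  rw [h5, h6, Fintype.card_fin] at h4
  have h7 : (Module.finrank ℝ V : ℝ) ≤ N := by
    have h8 := finrank_range_le_card (R := ℝ) (M := EuclideanSpace ℝ J) u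
    rw [Fintype.card_fin] at h8
    exact_mod_cast h8
  exact h4.trans (mul_le_mul_of_nonneg_right h7
    (Finset.sum_nonneg fun i _ => Finset.sum_nonneg fun i' _ => sq_nonneg _))

/-- The recurrence of order `N` for the indices below `X` bounds the Gram sum of the `a × a` Hankel
matrix, `2 a ≤ X`. -/
theorem hankel_gram (s : ℕ → ℝ) (N X a : ℕ) (q : ℕ → ℝ) (haX : 2 * a ≤ X)
    (hq : ∀ k < X, s (k + N) = ∑ j ∈ range N, q j * s (k + j)) :
    (∑ i : Fin a, ∑ j : Fin a, s (i + j) ^ 2) ^ 2 ≤
      (N : ℝ) * ∑ i : Fin a, ∑ i' : Fin a, (∑ j : Fin a, s (i + j) * s (i' + j)) ^ 2 := by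
  let row : ℕ → EuclideanSpace ℝ (Fin a) := fun i => WithLp.toLp 2 fun j : Fin a => s (i + j)
  have hin : ∀ i i' : ℕ, (inner ℝ (row i) (row i') : ℝ) =
      ∑ j : Fin a, s (i + j) * s (i' + j) := by
    intro i i'
    rw [PiLp.inner_apply]
    refine Finset.sum_congr rfl fun j _ => ?_
    simp only [row, RCLike.inner_apply, conj_trivial]
    ring
  have hspan : ∀ i : ℕ, i < a → row i ∈ Submodule.span ℝ (Set.range fun k : Fin N => row k) := by
    intro i
    induction i using Nat.strong_induction_on with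
    | _ i ih =>
      intro hi
      by_cases hiN : i < N
      · exact Submodule.subset_span ⟨⟨i, hiN⟩, rfl⟩
      · push Not at hiN
        have h1 : row i = ∑ j ∈ range N, q j • row (i - N + j) := by
          ext c
          have h2 := hq (i - N + c) (by have := c.2; omega)
          have h3 : (∑ j ∈ range N, q j • row (i - N + j)) c =
              ∑ j ∈ range N, q j * s (i - N + j + c) := by
            simp [row]
          rw [h3]
          have h4 : row i c = s (i - N + c + N) := by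
            simp only [row]
            congr 1
            omega
          rw [h4, h2]
          refine Finset.sum_congr rfl fun j _ => ?_
          rw [show i - N + (c : ℕ) + j = i - N + j + c by omega]
        rw [h1]
        refine Submodule.sum_mem _ fun j hj => Submodule.smul_mem _ _ ?_
        rw [Finset.mem_range] at hj
        exact ih (i - N + j) (by omega) (by omega)
  have h := span_gram N (fun i : Fin a => row i) (fun k : Fin N => row k)
    fun i => hspan i i.2
  simp only [hin] at h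
  have h5 : ∀ i : Fin a, ∑ j : Fin a, s (i + j) * s (i + j) = ∑ j : Fin a, s (i + j) ^ 2 :=
    fun i => Finset.sum_congr rfl fun j _ => (sq _).symm
  simp only [h5] at h
  exact h

end Pool.CUB
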